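import Pool.Agent.J6H84.TS.Stm

set_option autoImplicit false

/-! Project TS (MP_c7a479_co), module FIX: from the automorphisms to the automorphisms fixing every cube. -/

namespace Pool.Agent.J6H24.TS.Fix

open Finset Pool.Agent.H430R2.PermCubes Pool.Agent.J6H84.LM Pool.Agent.J6H84.TS

variable {m n k : ℕ} {C : Fin k → (Fin m → Fin n) → Fin n}

theorem aut_one : Aut C 1 1 := fun _ => ⟨1, fun _ => rfl⟩

theorem aut_mul {π π' : Equiv.Perm (Fin k)} {σ σ' : Equiv.Perm (Fin m → Fin n)}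
    (h : Aut C π σ) (h' : Aut C π' σ') : Aut C (π * π') (σ * σ') := by
  intro i
  obtain ⟨τ, hτ⟩ := h (π' i)
  obtain ⟨τ', hτ'⟩ := h' i
  refine ⟨τ * τ', fun x => ?_⟩
  rw [Equiv.Perm.mul_apply, Equiv.Perm.mul_apply, hτ, hτ', Equiv.Perm.mul_apply]

theorem aut_unique (hC : IsArray m n k C) (hn : 2 ≤ n) (hm : 2 ≤ m) (hmk : m ≤ k)
    {π π' : Equiv.Perm (Fin k)} {σ : Equiv.Perm (Fin m → Fin n)}
    (h : Aut C π σ) (h' : Aut C π' σ) : π = π' := by
  have : Nontrivial (Fin n) := Fin.nontrivial_iff_two_le.2 hn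
  apply Equiv.ext
  intro i
  by_contra hne
  obtain ⟨T, hT1, -, hT2⟩ := Finset.exists_subsuperset_card_eq
    (Finset.subset_univ ({π i, π' i} : Finset (Fin k)))
    (show ({π i, π' i} : Finset (Fin k)).card ≤ m from (Finset.card_le_two).trans hm)
    (show m ≤ (Finset.univ : Finset (Fin k)).card by simpa using hmk)
  have hj : π i ∈ T := hT1 (by simp)
  have hj' : π' i ∈ T := hT1 (by simp)
  obtain ⟨a, b, hab⟩ := exists_pair_ne (Fin n)
  obtain ⟨x1, hx1⟩ := hC.exists_point T hT2 (fun _ => a)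
  obtain ⟨x2, hx2⟩ := hC.exists_point T hT2 (fun j => if j = π' i then b else a)
  have e1 : C (π i) x1 = C (π i) x2 := by
    rw [hx1 _ hj, hx2 _ hj, if_neg hne]
  have e2 : C (π' i) x1 ≠ C (π' i) x2 := by
    rw [hx1 _ hj', hx2 _ hj', if_pos rfl]
    exact hab
  obtain ⟨τ, hτ⟩ := h i
  obtain ⟨τ', hτ'⟩ := h' i
  apply e2
  have h1 := hτ (σ.symm x1)
  have h2 := hτ (σ.symm x2)
  have h3 := hτ' (σ.symm x1)
  have h4 := hτ' (σ.symm x2)
  rw [Equiv.apply_symm_apply] at h1 h2 h3 h4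
  rw [h1, h2] at e1
  rw [h3, h4, τ.injective e1]

/-- **TS-FIX** -/
theorem main : S_Fix := by
  intro p hp m k C hm hmk hk hC Q hQ hA
  have hp2 : 2 ≤ p := hp.out.two_le
  choose g hg using fun σ : Q => hA σ.1 σ.2
  have hu : ∀ (σ : Q) (π : Equiv.Perm (Fin k)), Aut C π σ.1 → g σ = π := fun σ π h =>
    aut_unique hC hp2 hm hmk (hg σ) h
  let f : Q →* Equiv.Perm (Fin k) :=
    { toFun := g
      map_one' := hu 1 1 aut_one
      map_mul' := fun σ σ' => hu (σ * σ') (g σ * g σ') (aut_mul (hg σ) (hg σ')) }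
  have hfin : Finite Q := inferInstance
  have h1 : Nat.card f.range ∣ p ^ m := hQ ▸ Subgroup.card_range_dvd f
  obtain ⟨j, hj, hj'⟩ := (Nat.dvd_prime_pow hp.out).1 h1
  have h2 : p ^ j ∣ k.factorial := by
    rw [← hj']
    have := Subgroup.card_subgroup_dvd_card f.range
    rwa [Nat.card_eq_fintype_card (α := Equiv.Perm (Fin k)), Fintype.card_perm,
      Fintype.card_fin] at this
  have h3 : j ≤ 1 := by
    by_contra hcon
    have h4 : p ^ 2 ∣ k.factorial := (pow_dvd_pow p (by omega)).trans h2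
    have hpp : 2 * p ≤ p ^ 2 := by nlinarith
    have h5 : Nat.log p k < 2 := Nat.log_lt_of_lt_pow (by omega) (by omega)
    rw [Nat.Prime.pow_dvd_factorial_iff hp.out h5] at h4
    have h6 : ∑ i ∈ Finset.Ico 1 2, k / p ^ i = k / p := by
      simp
    rw [h6] at h4
    have h7 : k / p < 2 := (Nat.div_lt_iff_lt_mul (by omega)).2 hk
    omega
  have h8 : Nat.card f.ker * p ^ j = p ^ m := by
    rw [← hj', ← hQ, ← Subgroup.index_ker]
    exact Subgroup.card_mul_index _
  have h9 : p ^ (m - 1) ∣ Nat.card f.ker := by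
    have e1 : Nat.card f.ker * p ^ j = p ^ (m - j) * p ^ j := by
      rw [h8, ← pow_add]
      congr 1
      omega
    have e2 : Nat.card f.ker = p ^ (m - j) := Nat.eq_of_mul_eq_mul_right (by positivity) e1
    rw [e2]
    exact pow_dvd_pow p (by omega)
  obtain ⟨K, hK⟩ := Sylow.exists_subgroup_card_pow_prime p h9
  refine ⟨(K.map f.ker.subtype).map Q.subtype, ?_, ?_⟩
  · rw [← hK]
    have e1 := Nat.card_congr (K.equivMapOfInjective _ f.ker.subtype_injective).toEquiv
    have e2 := Nat.card_congr ((K.map f.ker.subtype).equivMapOfInjective _ Q.subtype_injective).toEquiv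
    rw [← e2, ← e1]
  · intro σ hσ
    obtain ⟨σ', hσ', rfl⟩ := Subgroup.mem_map.1 hσ
    obtain ⟨σ'', hσ'', rfl⟩ := Subgroup.mem_map.1 hσ'
    have h10 : g σ''.1 = 1 := σ''.2
    have h11 := hg σ''.1
    rw [h10] at h11
    exact h11

end Pool.Agent.J6H24.TS.Fix
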